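import Pool.Agent.H56.Fekete.Main

/-!
# Negative answer to Q1: the Fekete energies of a Weil-Petersson quasicircle can be unbounded

There is a Weil-Petersson quasicircle `η` of unit capacity such that `F_n(η)` tends to infinity
along `n = 2 ^ m`. In particular `F_n(η)` has no finite limit.
-/

open Filter Topology
open Pool.Agent.H56.FeketeDefs

namespace Pool.Agent.Results.MP_d3aff2_an.FeketeUnbounded

theorem result : ∃ η : Set ℂ, IsWeilPetersson η 1 ∧
    Tendsto (fun m : ℕ => feketeEnergy η (2 ^ m)) atTop atTop ∧
    ∀ L : ℝ, ¬ Tendsto (feketeEnergy η) atTop (𝓝 L) :=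
  Pool.Agent.H56.Fekete.main

end Pool.Agent.Results.MP_d3aff2_an.FeketeUnbounded
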